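import Pool.Agent.Results.MP_1a91b9_nt.LeadingTermLaw
import Pool.Agent.TH129.NFC.Exact

/-!
# The refined conjecture of Birch and Swinnerton-Dyer over number fields as an exact law for point counts

Let `K` be a number field and `E : y² = x³ + a x + b` an elliptic curve over `K` (for instance the base
change of a curve over `ℚ`), `r` its rank, `Reg` the classical regulator (heights relative to `K`), `T` the
number of `K`-rational torsion points (definitions as in the file `LeadingTermLaw` of `MP_1a91b9_nt`).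
For a prime `v` of norm `q_v` let `P_v = 1 - a_v / q_v + e_v / q_v²` be the value at `s = 1` of the inverse
Euler factor, `a_v` and `e_v` being computed from the local minimal model: `P_v = #Ẽ(k_v) / q_v` for good
reduction. For `c > π/2` let `w(u) = e^{icu} / Γ(1 + u)` and

`Π_c(Y) = ∏_{q_v ≤ e^Y} P_v ^ w(log q_v / log Y)`,

a finite product of complex powers of positive rational numbers. Let `F` be any continuation of the
`L`-series of `E` to `s = 1`, meromorphic at the points of `[1, 2]`, with order `m` and leading coefficient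
`l` at `1`; let `H` be any continuation to `s = 2` along the real axis of the Euler product

`∏_v (1 - (a_v² - 2 q_v) q_v^{-s} + q_v^{2 - 2s})⁻¹`

over the primes `v ∤ 6` of good reduction (the factors with the SQUARES of the eigenvalues of Frobenius),
and `m₂` its order at `2`. It is shown, without any hypothesis on zeros, that for all `c > π/2`

`Π_c(Y) ∼ 2^{m₂/2} e^{-mΛ(c)} l⁻¹ (log Y)^m`,

and that for every real `A > 0` the following are equivalent:

* `ord_{s=1} F = r` and the leading coefficient of `F` at `1` is `A · Reg / T²`;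
* `Π_c(Y) / N(Y)² → 2^{m₂/2} e^{-rΛ(c)} / (V_r² A)` for some, or for all `c > π/2`.

Here `N(Y)` is the number of `K`-rational points of height at most `log Y` and `V_r` the volume of the unit
ball of `ℝ^r`. With `A = #Ш Ω C / |Disc K|^{1/2}` the first statement is the formula for the leading term.

`H` being `L(Sym² E, s) / ζ_K(s - 1)` up to finitely many factors, `m₂ = 1` is to be expected if `E` has no
complex multiplication defined over `K`, and `m₂ = 0` if it has: so the constant is `√2`, found over `ℚ` by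
Goldfeld (1982) for the products with `w = 1`, or `1`.
-/

set_option autoImplicit false

open Filter Topology NumberField IsDedekindDomain IsLocalRing Classical

namespace Pool.Agent.Results.MP_f50388_nt.ExactCountingLaw

open Pool.Agent.Results.MP_1a91b9_nt.LeadingTermLaw

variable {K : Type} [Field K] [NumberField K]

/-- good reduction at `v` (of the minimal model over the completion) -/
def IsGood (E : WeierstrassCurve K) (v : HeightOneSpectrum (𝓞 K)) : Prop :=
  ((E.baseChange (v.adicCompletion K)).minimal (v.adicCompletionIntegers K)).HasGoodReduction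
    (v.adicCompletionIntegers K)

/-- the number of points of the reduction at `v` over the residue field -/
noncomputable def pointsMod (E : WeierstrassCurve K) (v : HeightOneSpectrum (𝓞 K)) : ℕ :=
  Nat.card (((E.baseChange (v.adicCompletion K)).minimal
    (v.adicCompletionIntegers K)).reduction (v.adicCompletionIntegers K)).toAffine.Point

/-- the norm of `v` -/
noncomputable def norm (v : HeightOneSpectrum (𝓞 K)) : ℕ := Ideal.absNorm v.asIdeal

/-- `P_v = 1 - a_v / q_v + e_v / q_v²`, the value of the inverse Euler factor at `s = 1`. -/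
noncomputable def localFactor (E : WeierstrassCurve K) (v : HeightOneSpectrum (𝓞 K)) : ℝ :=
  1 - (aCoef E v : ℝ) / norm v + (eCoef E v : ℝ) / (norm v : ℝ) ^ 2

/-- The weight `w(u) = e^{icu} / Γ(1 + u)`. -/
noncomputable def weight (c u : ℝ) : ℂ :=
  Complex.exp ((c * u : ℝ) * Complex.I) / (Real.Gamma (1 + u) : ℝ)

/-- `Π_c(Y)`: the product over the primes `v` with `q_v ≤ e^Y` of the powers of `P_v` with exponents
`w(log q_v / log Y)`. -/
noncomputable def localProduct (E : WeierstrassCurve K) (c Y : ℝ) : ℂ :=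
  ∏ᶠ v ∈ {v : HeightOneSpectrum (𝓞 K) | (norm v : ℝ) ≤ Real.exp Y},
    (localFactor E v : ℂ) ^ weight c (Real.log (norm v) / Real.log Y)

/-- The Euler product over the primes `v ∤ 6` of good reduction of
`(1 - (a_v² - 2 q_v) q_v^{-s} + q_v^{2 - 2s})⁻¹ = ((1 - α_v² q_v^{-s}) (1 - β_v² q_v^{-s}))⁻¹`. -/
noncomputable def squareFunction (E : WeierstrassCurve K) (s : ℂ) : ℂ :=
  ∏' v : {v : HeightOneSpectrum (𝓞 K) // (6 : 𝓞 K) ∉ v.asIdeal ∧ IsGood E v},
    (1 - ((aCoef E v.1 : ℂ) ^ 2 - 2 * norm v.1) * (norm v.1 : ℂ) ^ (-s) +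
      (norm v.1 : ℂ) ^ (2 - 2 * s))⁻¹

theorem weight_eq (c u : ℝ) : weight c u = TH129.AVC.cw c u := by
  unfold weight TH129.AVC.cw W189.ML.om
  push_cast
  rw [div_eq_mul_inv]

theorem localFactor_eq (E : WeierstrassCurve K) (v : HeightOneSpectrum (𝓞 K)) :
    localFactor E v = TH129.NFC.lfac E v := rfl

theorem localProduct_eq (E : WeierstrassCurve K) (c Y : ℝ) :
    localProduct E c Y = TH129.NFC.nfP E c Y :=
  finprod_mem_congr rfl fun v _ => by
    rw [weight_eq]
    rfl

theorem squareFunction_eq (E : WeierstrassCurve K) (s : ℂ) :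
    squareFunction E s = TH652.COL.LF TH129.NFC.qn
      (TH129.AVC.B2 (TH129.NFC.Nice E) (TH129.NFC.bE E)) s :=
  (TH129.NFC.LF_nice E s).symm

/-- **The refined conjecture over number fields as an exact law for numbers of points.** -/
theorem result (K : Type) [Field K] [NumberField K] (a b : K) (hΔ : 4 * a ^ 3 + 27 * b ^ 2 ≠ 0)
    (F : ℂ → ℂ) (hmer : ∀ x : ℝ, 1 ≤ x → x ≤ 2 → MeromorphicAt F (x : ℂ))
    (hF : ∀ s : ℂ, 2 < s.re → F s = (curve a b).LSeries s)
    (H : ℂ → ℂ) (hmerH : ∀ x : ℝ, 2 ≤ x → MeromorphicAt H (x : ℂ)) (σ : ℝ)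
    (hH : ∀ s : ℂ, σ < s.re → H s = squareFunction (curve a b) s) :
    (∀ v : HeightOneSpectrum (𝓞 K), 0 < localFactor (curve a b) v ∧
      (IsGood (curve a b) v →
        localFactor (curve a b) v = (pointsMod (curve a b) v : ℝ) / norm v)) ∧
    ∃ m m₂ : ℤ, meromorphicOrderAt F 1 = m ∧ meromorphicOrderAt H 2 = m₂ ∧
    meromorphicTrailingCoeffAt F 1 ≠ 0 ∧
    (∀ c : ℝ, Real.pi / 2 < c →
      Tendsto (fun Y : ℝ => localProduct (curve a b) c Y / (Real.log Y : ℂ) ^ m) atTop
        (𝓝 (((2 : ℝ) ^ ((m₂ : ℝ) / 2) : ℝ) * Complex.exp (-(m * Lam c)) /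
          meromorphicTrailingCoeffAt F 1))) ∧
    (∃ g : Fin (rank a b) → Pts a b, IsMWBasis g) ∧
    ∀ g : Fin (rank a b) → Pts a b, IsMWBasis g → 0 < regulator g ∧ ∀ A : ℝ, 0 < A →
      List.TFAE [
        meromorphicOrderAt F 1 = ((rank a b : ℤ) : WithTop ℤ) ∧
          meromorphicTrailingCoeffAt F 1 = ((A * regulator g / tors a b ^ 2 : ℝ) : ℂ),
        ∃ c : ℝ, Real.pi / 2 < c ∧
          Tendsto (fun Y : ℝ => localProduct (curve a b) c Y / (pointsUpTo a b Y : ℂ) ^ 2) atTop
            (𝓝 (((2 : ℝ) ^ ((m₂ : ℝ) / 2) : ℝ) * Complex.exp (-(rank a b * Lam c)) /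
              (ballVol (rank a b) ^ 2 * A : ℝ))),
        ∀ c : ℝ, Real.pi / 2 < c →
          Tendsto (fun Y : ℝ => localProduct (curve a b) c Y / (pointsUpTo a b Y : ℂ) ^ 2) atTop
            (𝓝 (((2 : ℝ) ^ ((m₂ : ℝ) / 2) : ℝ) * Complex.exp (-(rank a b * Lam c)) /
              (ballVol (rank a b) ^ 2 * A : ℝ)))] := by
  have hDc : (curve a b).Δ ≠ 0 := by
    have h1 : (curve a b).Δ = -16 * (4 * a ^ 3 + 27 * b ^ 2) := TH942.sw_Δ a b
    rw [h1]
    exact mul_ne_zero (by norm_num) hΔ
  have hcont : W189.NF.IsCont (curve a b) F := ⟨hmer, hF⟩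
  refine ⟨fun v => ⟨TH129.NFC.lfac_pos (curve a b) v, fun hv => TH129.NFC.lfac_good _ hv⟩, ?_⟩
  obtain ⟨m₂, hm₂, hclose⟩ := TH129.NFC.nfP_close (curve a b) hDc hmerH
    (fun s hs => by rw [hH s hs, squareFunction_eq])
  simp only [← localProduct_eq] at hclose
  have hprod0 : ∀ c Y : ℝ, localProduct (curve a b) c Y ≠ 0 := fun c Y => by
    rw [localProduct_eq]
    exact TH129.NFC.nfP_ne_zero _ c Y
  obtain ⟨-, hbasis, hmain⟩ := MP_1a91b9_nt.LeadingTermLaw.result K a b hΔ F hmer hF
  set t : ℂ := (((2 : ℝ) ^ ((m₂ : ℝ) / 2) : ℝ) : ℂ) with ht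
  have ht0 : t ≠ 0 := by
    rw [ht]
    have : (0 : ℝ) < (2 : ℝ) ^ ((m₂ : ℝ) / 2) := by positivity
    exact_mod_cast this.ne'
  have hti : t⁻¹ ≠ 0 := inv_ne_zero ht0
  -- transfer of limits
  have htrans : ∀ c : ℝ, Real.pi / 2 < c → ∀ (g : ℝ → ℂ) (l : ℂ),
      (Tendsto (fun Y : ℝ => Complex.exp (W187.UR.rSum (curve a b) c (Real.log Y)) / g Y) atTop
        (𝓝 l) ↔
        Tendsto (fun Y : ℝ => localProduct (curve a b) c Y / g Y) atTop (𝓝 (t * l))) := by
    intro c hc g l
    have h1 := hclose c hc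
    constructor
    · intro h2
      have h3 := h2.div h1 hti
      rw [div_inv_eq_mul, mul_comm l t] at h3
      refine h3.congr fun Y => ?_
      simp only [Pi.div_apply]
      have h4 := Complex.exp_ne_zero (W187.UR.rSum (curve a b) c (Real.log Y))
      have h5 := hprod0 c Y
      field_simp
    · intro h2
      have h3 := h2.mul h1
      rw [mul_comm t l, mul_assoc, mul_inv_cancel₀ ht0, mul_one] at h3
      refine h3.congr fun Y => ?_
      have h5 := hprod0 c Y
      field_simp
  -- the sums over the prime powers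
  have hS : ∀ c : ℝ, ∀ (g : ℝ → ℂ) (l : ℂ),
      (Tendsto (fun Y : ℝ => Complex.exp (S (curve a b) c Y) / g Y) atTop (𝓝 l) ↔
        Tendsto (fun Y : ℝ => Complex.exp (W187.UR.rSum (curve a b) c (Real.log Y)) / g Y) atTop
          (𝓝 l)) := by
    intro c g l
    have h1 : Tendsto (fun X : ℝ => Complex.exp (W187.UR.rSum (curve a b) c (Real.log X) -
        S (curve a b) c X)) atTop (𝓝 1) := by
      have h2 := TH129.NFC.nfFin_close hDc c
      have h3 := (Complex.continuous_exp.tendsto 0).comp h2
      rw [Complex.exp_zero] at h3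
      refine h3.congr fun X => ?_
      simp only [Function.comp_apply]
      rw [S_eq]
    constructor
    · intro h2
      have h3 := h2.mul h1
      rw [mul_one] at h3
      refine h3.congr fun Y => ?_
      rw [div_mul_eq_mul_div, ← Complex.exp_add]
      congr 2
      ring
    · intro h2
      have h3 := h2.div h1 one_ne_zero
      rw [div_one] at h3
      refine h3.congr fun Y => ?_
      simp only [Pi.div_apply]
      rw [div_right_comm, ← Complex.exp_sub]
      congr 2
      ring
  obtain ⟨m, l, hm, hl, hl0, -, -⟩ := W187.UR.nf_rot hcont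
    (show Real.pi / 2 < Real.pi by linarith [Real.pi_pos])
  refine ⟨m, m₂, hm, hm₂, ?_, ?_, hbasis, fun g hg => ⟨(hmain g hg).1, fun A hA => ?_⟩⟩
  · rw [hl]
    exact_mod_cast hl0
  · intro c hc
    obtain ⟨m', l', hm', hl', -, -, hlim⟩ := W187.UR.nf_rot hcont hc
    have hmm : m' = m := by
      rw [hm] at hm'
      exact_mod_cast hm'.symm
    subst hmm
    have h1 := hlim.comp Real.tendsto_log_atTop
    have h2 := (htrans c hc (fun Y => (Real.log Y : ℂ) ^ m') _).1 h1
    rw [mul_div_assoc, hl']
    exact h2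
  · have h1 := (hmain g hg).2 A hA
    have h13 := h1.out 0 2
    have h14 := h1.out 0 3
    tfae_have 1 → 3 := by
      intro h c hc
      rw [mul_div_assoc]
      exact (htrans c hc _ _).1 ((hS c _ _).1 (h14.1 h c hc))
    tfae_have 3 → 2 := fun h => ⟨Real.pi, by linarith [Real.pi_pos], h Real.pi
      (by linarith [Real.pi_pos])⟩
    tfae_have 2 → 1 := by
      rintro ⟨c, hc, h⟩
      rw [mul_div_assoc] at h
      exact h13.2 ⟨c, hc, (hS c _ _).2 ((htrans c hc _ _).2 h)⟩
    tfae_finish

end Pool.Agent.Results.MP_f50388_nt.ExactCountingLaw
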