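import Pool.Agent.TH936.AC.Fin
import Pool.Agent.TH936.AC.Bar
import Pool.Agent.TH936.AC.Dec
import Pool.Agent.TH936.AC.Eps
import Pool.Agent.TH936.AC.Line
import Pool.Agent.TH936.AC.Ori
import Pool.Agent.TH936.AC.Count
import Pool.Agent.TH936.AC.Tail
import Pool.Agent.TH936.AC.Rough
import Pool.Agent.TH936.AC.Prd
import Pool.Agent.TH936.AC.Rank
import Pool.Agent.TH936.AC.Phi
import Pool.Agent.TH936.AC.Phi2
import Pool.Agent.TH936.AC.Reg
import Pool.Agent.TH936.AC.Rbd
import Pool.Agent.TH936.AC.Fe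
import Pool.Agent.TH936.AC.Cyc
import Pool.Agent.TH936.AC.Ram
import Pool.Agent.W216.CY.Div
import Pool.Agent.W287.HK.Basic
import Pool.Agent.W571.HK.Cls
import Pool.Agent.W53.HK.Fp
import Pool.Agent.W366.HK.Fpr
import Pool.Agent.W585.HK.LAT
import Pool.Agent.W692.HK.Ker
import Pool.Agent.W584.HK.CNT
import Pool.Agent.W513.HK.Divr
import Pool.Agent.W930.HK.Mob
import Pool.Agent.W856.HK.Dec
import Pool.Agent.W636.HK.Gauss
import Pool.Agent.W348.HK.Pois
import Pool.Agent.W29.HK.Prod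
import Pool.Agent.W283.HK.PW

/-!
# Elliptic curves over `ℚ` with complex multiplication over the ring class fields of prime conductor

`R` is the ring of integers of an imaginary quadratic field `K` of class number one, `ψ` a primitive
Hecke character of `K` of conductor `f` and infinity type `(1, 0)` with `ψ(bar I) = conj ψ(I)`: the
Hecke character of an elliptic curve `E` over `ℚ` with complex multiplication by `R`.  For a prime
number `q` prime to `f` let `K[q]` be the ring class field of conductor `q`; the nontrivial characters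
of `Gal(K[q] / K)` are the ring class characters `χ` of conductor `q`: the primitive ray class
characters of conductor `(q)` that are trivial on the rational integers prime to `q`.

The functional equation relates `L(ψ χ, s)` to itself, with sign `w (ψ((q)) / q) χ(f)`, `w` being the
sign of `L(ψ, s) = L(E / ℚ, s)`.  If the sign is `-1` then `L(ψ χ, 1) = 0`.  The theorem: for every
`ε > 0`, every sufficiently large `q` and EVERY ring class character `χ` of conductor `q` and of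
order `≥ q ^ (2/3 + ε)` with sign `+1` one has `L(ψ χ, 1) ≠ 0`, and the sum of the orders of vanishing
at `s = 1` of all the `L(ψ χ, s)` with sign `+1` is at most `q ^ (2/3 + ε)` (the group `Gal(K[q] / K)`
is cyclic of order `2 (q ± 1) / |Rˣ|`).

The approach: the average over the Galois conjugates `χ ^ a`, `a ≡ 1 mod M`, of the product of the
central value with a mollifier; `ψ χ` restricted to the rational integers does not depend on `χ`, so
every ideal is written as `(m) c` with `c` prime to its conjugate; the multiplicative relations between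
the `c` of norm `≤ q ^ (6/5)` are controlled by counting elements of `R` on lines modulo `q` and a
power trick; the mollifier is the product over the split primes `p ≤ (log q) ^ 200`.  The proof uses
the start library (project HK of helper192, and others), `Pool.Agent.TH936.CM.equi` (the vanishing of
`L(ψ χ, 1)` is invariant under the Galois group) and project AC.
-/

set_option autoImplicit false

open Complex

namespace Pool.Agent.Results.MP_f50388_nt.RingClassTwists

/-- The norm `N(I)` of an ideal (`0` for the zero ideal, whose residue ring is infinite). -/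
noncomputable def norm {R : Subring ℂ} (I : Ideal R) : ℝ := (Nat.card (R ⧸ I) : ℝ)

/-- `ψ`, a function on the ideals of `R`, is a primitive Hecke character of conductor `f` and infinity
type `(n, 0)`: it is multiplicative, vanishes exactly at the zero ideal and the ideals not prime to
`f`, satisfies `ψ((α)) = α ^ n` for `α ≡ 1 mod f`, and this fails for every strictly larger ideal `f'`
in place of `f`.  For `n = 0` these are the primitive ray class characters of conductor `f`. -/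
structure IsHecke {R : Subring ℂ} (n : ℕ) (f : Ideal R) (ψ : Ideal R → ℂ) : Prop where
  ne_bot : f ≠ ⊥
  mul : ∀ I J : Ideal R, ψ (I * J) = ψ I * ψ J
  eq_zero : ∀ I : Ideal R, ψ I = 0 ↔ (I = ⊥ ∨ ¬ IsCoprime I f)
  principal : ∀ α : R, α ≠ 0 → α - 1 ∈ f → ψ (Ideal.span {α}) = (α : ℂ) ^ n
  primitive : ∀ f' : Ideal R, f < f' → ∃ α : R, α ≠ 0 ∧ α - 1 ∈ f' ∧ IsCoprime (Ideal.span {α}) f ∧
    ψ (Ideal.span {α}) ≠ (α : ℂ) ^ n

/-- `ψ(bar I) = conj ψ(I)` (for principal ideals) -/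
def ConjSymmetric {R : Subring ℂ} (ψ : Ideal R → ℂ) : Prop :=
  ∀ α β : R, (β : ℂ) = (starRingEnd ℂ) (α : ℂ) →
    ψ (Ideal.span {β}) = (starRingEnd ℂ) (ψ (Ideal.span {α}))

/-- `χ` is a (primitive) ring class character of conductor the prime number `q`: a primitive ray class
character of conductor `(q)` that is trivial on the rational integers prime to `q`. -/
structure IsRingClass {R : Subring ℂ} (q : ℕ) (χ : Ideal R → ℂ) : Prop where
  prime : q.Prime
  hecke : IsHecke 0 (Ideal.span {(q : R)}) χ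
  int : ∀ m : ℕ, Nat.Coprime m q → χ (Ideal.span {(m : R)}) = 1

/-- `d` is the order of the character `χ`. -/
structure IsOrder {R : Subring ℂ} (χ : Ideal R → ℂ) (d : ℕ) : Prop where
  pos : 0 < d
  pow : ∀ I : Ideal R, χ I ≠ 0 → χ I ^ d = 1
  least : ∀ n : ℕ, 0 < n → (∀ I : Ideal R, χ I ≠ 0 → χ I ^ n = 1) → d ≤ n

/-- `F` is entire and `F(s) = ∑ θ(I) N(I)^(-s)` for `Re s > 3/2`. -/
structure IsLFunction {R : Subring ℂ} (θ : Ideal R → ℂ) (F : ℂ → ℂ) : Prop where
  entire : Differentiable ℂ F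
  series : ∀ s : ℂ, 3 / 2 < s.re → HasSum (fun I : Ideal R => θ I * (norm I : ℂ) ^ (-s)) (F s)

/-- The functional equation with conductor `𝔣` and sign `W`: with `A = √(|D| N(𝔣)) / 2π`, where
`√|D| = 2 Im ω`, and `Λ(s) = A ^ s Γ(s) F(s)`, one has `Λ(s) = W Λ(2 - s)` for `0 < Re s < 2`. -/
def FunctionalEquation {R : Subring ℂ} (ω : ℂ) (𝔣 : Ideal R) (W : ℂ) (F : ℂ → ℂ) : Prop :=
  ∀ s : ℂ, 0 < s.re → s.re < 2 →
    ((ω.im * Real.sqrt (norm 𝔣) / Real.pi : ℝ) : ℂ) ^ s * Complex.Gamma s * F s =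
      W * (((ω.im * Real.sqrt (norm 𝔣) / Real.pi : ℝ) : ℂ) ^ (2 - s) * Complex.Gamma (2 - s) *
        F (2 - s))

/-- the sign of `L(ψ χ, s)`, where `w` is the sign of `L(ψ, s)` -/
noncomputable def sign {R : Subring ℂ} (w : ℂ) (f : Ideal R) (ψ : Ideal R → ℂ) (q : ℕ)
    (χ : Ideal R → ℂ) : ℂ := w * (ψ (Ideal.span {(q : R)}) / (q : ℂ)) * χ f

/-- the ring class characters of conductor `q` for which the sign is `+1` -/
def plus {R : Subring ℂ} (w : ℂ) (f : Ideal R) (ψ : Ideal R → ℂ) (q : ℕ) : Set (Ideal R → ℂ) :=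
  {χ | IsRingClass q χ ∧ sign w f ψ q χ = 1}

open Pool.Agent.W192.HK in
theorem isHecke_iff {R : Subring ℂ} (n : ℕ) (f : Ideal R) (ψ : Ideal R → ℂ) :
    IsHecke n f ψ ↔ HC n f ψ :=
  ⟨fun h => ⟨h.ne_bot, h.mul, h.eq_zero, h.principal, h.primitive⟩,
    fun h => ⟨h.ne, h.mul, h.zero, h.princ, h.prim⟩⟩

open Pool.Agent.W192.HK Pool.Agent.TH936.AC in
theorem isRingClass_iff {R : Subring ℂ} (q : ℕ) (χ : Ideal R → ℂ) :
    IsRingClass q χ ↔ HC 0 (sp (q : R)) χ ∧ RG q χ := by
  constructor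
  · intro h
    have h1 : HC 0 (sp (q : R)) χ := (isHecke_iff _ _ _).1 h.hecke
    exact ⟨h1, ⟨h.prime, h1.rc, h.int⟩⟩
  · rintro ⟨h1, h2⟩
    exact ⟨h2.prime, (isHecke_iff _ _ _).2 h1, h2.int⟩

/-- **Main theorem.** Let `R = ℤ + ℤ ω` be a subring of `ℂ` that is a lattice and a principal ideal
domain, and `ψ` a primitive Hecke character of conductor `f` and infinity type `(1, 0)` on the ideals
of `R` with `ψ(bar I) = conj ψ(I)`.  There are `w = ±1`, a function `L₀` and functions `L χ` such that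
`L₀` is `L(ψ, s)` and has the functional equation with sign `w`, and for every ring class character
`χ` of prime conductor `q` prime to `f` the function `L χ` is `L(ψ χ, s)`, it has finite order at
`s = 1`, its functional equation has the sign `w (ψ((q)) / q) χ(f) = ±1`, and `L χ 1 = 0` if this sign
is `-1`.  For every `ε > 0` there is `q₀` such that for `q ≥ q₀` every `χ` of order at least
`q ^ (2/3 + ε)` with sign `+1` has `L χ 1 ≠ 0`, and the sum of the orders at `s = 1` of the `L χ` over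
all ring class characters `χ` of conductor `q` with sign `+1` is at most `q ^ (2/3 + ε)`. -/
theorem result (R : Subring ℂ) (ω : ℂ) (hω : 0 < ω.im)
    (hR : ∀ z : ℂ, z ∈ R ↔ ∃ x y : ℤ, z = x + y * ω) (hpid : IsPrincipalIdealRing R)
    (f : Ideal R) (ψ : Ideal R → ℂ) (hψ : IsHecke 1 f ψ) (hc : ConjSymmetric ψ) :
    ∃ (w : ℂ) (L₀ : ℂ → ℂ) (L : (Ideal R → ℂ) → ℂ → ℂ),
      (w = 1 ∨ w = -1) ∧ IsLFunction ψ L₀ ∧ FunctionalEquation ω f w L₀ ∧
      (∀ (q : ℕ) (χ : Ideal R → ℂ), IsRingClass q χ → IsCoprime f (Ideal.span {(q : R)}) →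
        IsLFunction (fun I => ψ I * χ I) (L χ) ∧ analyticOrderAt (L χ) 1 ≠ ⊤ ∧
        FunctionalEquation ω (f * Ideal.span {(q : R)}) (sign w f ψ q χ) (L χ) ∧
        (sign w f ψ q χ = 1 ∨ sign w f ψ q χ = -1) ∧ (sign w f ψ q χ = -1 → L χ 1 = 0)) ∧
      ∀ ε : ℝ, 0 < ε → ∃ q₀ : ℝ,
        (∀ (q : ℕ) (χ : Ideal R → ℂ), IsRingClass q χ → IsCoprime f (Ideal.span {(q : R)}) →
          q₀ ≤ q → ∀ d : ℕ, IsOrder χ d → (q : ℝ) ^ (2 / 3 + ε) ≤ d → sign w f ψ q χ = 1 →
          L χ 1 ≠ 0) ∧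
        ∀ q : ℕ, q.Prime → IsCoprime f (Ideal.span {(q : R)}) → q₀ ≤ q →
          (plus w f ψ q).Finite ∧
          ∑ᶠ χ ∈ plus w f ψ q, (analyticOrderNatAt (L χ) 1 : ℝ) ≤ (q : ℝ) ^ (2 / 3 + ε) := by
  classical
  have hbasic := Pool.Agent.W287.HK.h_basic
  have hcls := Pool.Agent.W571.HK.h_cls hbasic
  have hfp := Pool.Agent.W53.HK.h_fp hbasic hcls
  have hfpr := Pool.Agent.W366.HK.h_fpr hbasic hcls
  have hlat := Pool.Agent.W585.HK.h_lat hbasic
  have hker := Pool.Agent.W692.HK.h_ker hbasic hcls hfpr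
  have hcnt := Pool.Agent.W584.HK.h_cnt hbasic hcls hfpr hlat hker
  have hdivr := Pool.Agent.W513.HK.h_divr hbasic
  have hmob := Pool.Agent.W930.HK.h_mob
  have hdiv := Pool.Agent.W216.CY.t_div
  have hdec := Pool.Agent.W856.HK.h_dec hbasic
  have hgauss := Pool.Agent.W636.HK.h_gauss hbasic hfp
  have hpois := Pool.Agent.W348.HK.h_pois hbasic
  have htheta := Pool.Agent.TH936.HK.h_theta hbasic hfp hdec hgauss hpois hcnt
  have hafe := Pool.Agent.TH936.HK.h_afe hbasic hfp hcnt hgauss htheta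
  have hprod := Pool.Agent.W29.HK.h_prod hbasic hfp
  have hpw := Pool.Agent.W283.HK.PW.h_pw hbasic
  -- project AC
  have abar := Pool.Agent.TH936.AC.a_bar hbasic
  have adec := Pool.Agent.TH936.AC.a_dec hbasic abar
  have aeps := Pool.Agent.TH936.AC.a_eps hbasic hfp abar
  have aline := Pool.Agent.TH936.AC.a_line hbasic hfpr hker abar
  have aori := Pool.Agent.TH936.AC.a_ori abar
  have acount := Pool.Agent.TH936.AC.a_count hbasic hcnt hdivr hfpr abar aline aori
  have arcount := Pool.Agent.TH936.AC.a_rcount hbasic hcnt hfpr abar aline aori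
  have atail := Pool.Agent.TH936.AC.a_tail hbasic hcnt acount
  have arough := Pool.Agent.TH936.AC.a_rough hbasic hcnt arcount
  have aprod := Pool.Agent.TH936.AC.a_prod hbasic abar
  have aphi := Pool.Agent.TH936.AC.a_phi hbasic hfp abar aeps aprod Pool.Agent.TH936.AC.a_rank
  have aphi2 := Pool.Agent.TH936.AC.a_phi2 hbasic hfp hdivr abar aprod
  have areg := Pool.Agent.TH936.AC.a_reg hbasic hcnt hfp hfpr abar adec aprod aphi2
  have arbd := Pool.Agent.TH936.AC.a_rbd hmob
  have afe := Pool.Agent.TH936.AC.a_fe hbasic hfp hcnt hgauss htheta hafe abar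
  have awc := Pool.Agent.TH936.AC.a_wc2 hbasic hcls hfp hpw abar
  have acyc := Pool.Agent.TH936.AC.a_cyc hbasic hfpr abar
  have aram := Pool.Agent.TH936.AC.a_ram hbasic hfp abar
  -- the data
  have hQ : Pool.Agent.TH936.AC.QP R ω := ⟨⟨hω, hR, inferInstance⟩, hpid⟩
  have hψ' : Pool.Agent.W192.HK.HC 1 f ψ := (isHecke_iff _ _ _).1 hψ
  have hcs : Pool.Agent.TH936.AC.CS ψ := by
    intro I
    obtain ⟨α, hα⟩ : ∃ α : R, I = Ideal.span {α} := (hpid.principal I).principal
    obtain ⟨k1, -, -, -, -, k6, -⟩ := abar R ω hQ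
    obtain ⟨β, hβ⟩ := k1 α
    have e1 : Pool.Agent.TH936.AC.bar I = Ideal.span {β} := by
      rw [hα]
      exact k6 α β hβ
    rw [e1, hα]
    exact hc α β hβ
  have hram := aram R ω hQ f ψ hψ' hcs
  obtain ⟨w, hw, ⟨L₀, m1, m2, m3⟩, hdata⟩ := Pool.Agent.TH936.AC.data hbasic hfpr hprod hpw abar afe
    awc hQ hψ' hcs
  have hequi := Pool.Agent.TH936.CM.equi hbasic hfp hcnt hdec hafe hcls hprod hpw hQ.qr hψ'
  obtain ⟨K, hK, hord⟩ := Pool.Agent.TH936.CM.ord_le hbasic hfp hcnt hgauss htheta hcls hQ.qr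
  have hcore := fun (M : ℕ) (hM : 1 ≤ M) (ε : ℝ) (hε : 0 < ε) =>
    Pool.Agent.TH936.AC.core hdiv hbasic hfp hcnt hmob abar areg aphi aphi2 atail arough
      Pool.Agent.TH936.AC.a_mert arbd hQ hψ' hcs hram M hM ε hε
  have hnonv := Pool.Agent.TH936.AC.nonv hcore hequi w
    (fun q χ hχ hrg hcop d hd a ha => by
      obtain ⟨-, F, -, -, -, k⟩ := hdata q χ hχ hrg hcop
      exact k d hd a ha)
  -- a function of `χ` only
  obtain ⟨Lx, hLx⟩ : ∃ Lx : (Ideal R → ℂ) → ℂ → ℂ, ∀ (χ : Ideal R → ℂ) (F : ℂ → ℂ),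
      Pool.Agent.TH936.CM.IsL ψ χ F → Lx χ = F := by
    refine ⟨fun χ => if h : ∃ F, Pool.Agent.TH936.CM.IsL ψ χ F then Classical.choose h
      else fun _ => 0, fun χ F hF => ?_⟩
    have h : ∃ F, Pool.Agent.TH936.CM.IsL ψ χ F := ⟨F, hF⟩
    have e1 := Classical.choose_spec h
    show (if h : ∃ F, Pool.Agent.TH936.CM.IsL ψ χ F then Classical.choose h else fun _ => 0) = F
    rw [dif_pos h]
    exact Pool.Agent.TH936.CM.entire_eq e1.diff hF.diff (3 / 2) fun z hz =>
      (e1.sum z hz).unique (hF.sum z hz)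
  have hL1 : ∀ (q : ℕ) (χ : Ideal R → ℂ), Pool.Agent.W192.HK.HC 0 (Ideal.span {(q : R)}) χ →
      Pool.Agent.TH936.AC.RG q χ → IsCoprime f (Ideal.span {(q : R)}) →
      Pool.Agent.TH936.CM.IsL ψ χ (Lx χ) := by
    intro q χ hχ hrg hcop
    obtain ⟨-, F, k, -⟩ := hdata q χ hχ hrg hcop
    rw [hLx χ F k]
    exact k
  have hordc : ∀ (q : ℕ) (χ : Ideal R → ℂ), Pool.Agent.W192.HK.HC 0 (Ideal.span {(q : R)}) χ →
      Pool.Agent.TH936.AC.RG q χ → IsCoprime f (Ideal.span {(q : R)}) →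
      analyticOrderAt (Lx χ) 1 ≠ ⊤ ∧ (analyticOrderNatAt (Lx χ) 1 : ℝ) ≤
        K * (1 + Real.log (Pool.Agent.W192.HK.nm (f * Ideal.span {(q : R)}))) := by
    intro q χ hχ hrg hcop
    have g2 := hL1 q χ hχ hrg hcop
    exact hord _ (fun I => ψ I * χ I) (hprod R ω hQ.qr 1 f _ ψ χ hψ' hχ hcop) _ g2.diff g2.sum
  refine ⟨w, L₀, Lx, hw, ⟨m1, m2⟩, m3, fun q χ hχ hcop => ?_, fun ε hε => ?_⟩
  · obtain ⟨h1, h2⟩ := (isRingClass_iff q χ).1 hχ
    obtain ⟨k1, F, k2, k3, k4, -⟩ := hdata q χ h1 h2 hcop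
    have e1 := hLx χ F k2
    have e2 := hL1 q χ h1 h2 hcop
    refine ⟨⟨e2.diff, e2.sum⟩, (hordc q χ h1 h2 hcop).1, ?_, k1, fun h3 => ?_⟩
    · rw [e1]
      exact k3
    · have h4 : w * (ψ (Ideal.span {(q : R)}) / (q : ℂ)) * χ f = -1 := h3
      rw [e1, k4, h4]
      ring
  · obtain ⟨q1, hq1⟩ := hnonv ε hε
    obtain ⟨q2, hq2⟩ := Pool.Agent.TH936.AC.rank hdiv hbasic hfpr acyc hQ hψ'.ne Lx
      (fun q χ => w * (ψ (Ideal.span {(q : R)}) / (q : ℂ)) * χ f = 1)
      (fun ε hε => by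
        obtain ⟨q0, hq0⟩ := hnonv ε hε
        exact ⟨q0, fun q χ hχ hrg hcop hq d hd hdq hS =>
          hq0 q χ hχ hrg hcop hq d hd hdq hS _ (hL1 q χ hχ hrg hcop)⟩)
      (fun q χ hχ hrg hcop => (hL1 q χ hχ hrg hcop).diff) hK
      (fun q χ hχ hrg hcop => (hordc q χ hχ hrg hcop).2) ε hε
    refine ⟨max q1 q2, fun q χ hχ hcop hq d hd hdq hS => ?_, fun q hq hcop hq0 => ?_⟩
    · obtain ⟨h1, h2⟩ := (isRingClass_iff q χ).1 hχ
      exact hq1 q χ h1 h2 hcop ((le_max_left _ _).trans hq) d ⟨hd.pos, hd.pow, hd.least⟩ hdq hS _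
        (hL1 q χ h1 h2 hcop)
    · have e1 : plus w f ψ q = {χ : Ideal R → ℂ |
          Pool.Agent.W192.HK.HC 0 (Ideal.span {(q : R)}) χ ∧ Pool.Agent.TH936.AC.RG q χ ∧
            w * (ψ (Ideal.span {(q : R)}) / (q : ℂ)) * χ f = 1} := by
        ext χ
        constructor
        · rintro ⟨h1, h2⟩
          obtain ⟨h3, h4⟩ := (isRingClass_iff q χ).1 h1
          exact ⟨h3, h4, h2⟩
        · rintro ⟨h1, h2, h3⟩
          exact ⟨(isRingClass_iff q χ).2 ⟨h1, h2⟩, h3⟩
      rw [e1]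
      exact hq2 q hq hcop ((le_max_right _ _).trans hq0)

end Pool.Agent.Results.MP_f50388_nt.RingClassTwists
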