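import Mathlib
import Pool.Agent.TH841.NF.FamN
import Pool.Agent.TH342.ShortSqSha

/-!
# All elliptic curves `y² = x (x - a) (x - b)`, `(a, b)` in a short square, over number fields

For every `L` there is a constant `C` such that for all nonzero integers `d₀`, ..., `d_s`, the
number field `K = ℚ(√d₁, ..., √d_s)` and all squares of side `X` at distance at most `X ^ L` from the
origin: the sum of `2 ^ (α (rank E(K) + corank Ш(E / K)[2^∞]))`, `α = 2 / 2 ^ s`, over the elliptic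
curves `E : y² = x (x - d₀ a) (x - d₀ b)`, `(a, b)` in the square, is at most
`C 128 ^ ω(d₀ ... d_s) X²`.
-/

set_option autoImplicit false

namespace Pool.Agent.Results.MP_f50388_nt.ShortSquaresOverFields

open Finset

open Pool.Agent.TH841.NF.D (HasDiv crk rk)

/-- The curve `y² = x³ - 27 (A² - A B + B²) x + 27 (A + B) (9 A B - 2 (A + B)²)` over `K`, which is
isomorphic to `y² = x (x - A) (x - B)`: the roots of the polynomial on the right hand side are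
`-3 (A + B)`, `6 A - 3 B = 9 A - 3 (A + B)` and `6 B - 3 A = 9 B - 3 (A + B)`. -/
def E (A B : ℤ) (K : Type) [Field K] : WeierstrassCurve K :=
  ⟨0, 0, 0, ((-27 * (A ^ 2 - A * B + B ^ 2) : ℤ) : K),
    ((27 * (A + B) * (9 * A * B - 2 * (A + B) ^ 2) : ℤ) : K)⟩

/-- The number field `K` is generated by square roots of the integers `d i`. -/
def Gen (K : Type) [Field K] [NumberField K] {s : ℕ} (d : Fin s → ℤ) : Prop :=
  ∃ x : Fin s → K, (∀ i, x i ^ 2 = (d i : K)) ∧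
    IntermediateField.adjoin ℚ (Set.range x) = ⊤

/-- The pairs `(a, b)` with `N₁ < a ≤ N₁ + X` and `N₂ < b ≤ N₂ + X` for which
`y² = x (x - a) (x - b)` is an elliptic curve. -/
noncomputable def Sq (N₁ N₂ : ℤ) (X : ℕ) : Finset (ℤ × ℤ) :=
  (Ioc N₁ (N₁ + X) ×ˢ Ioc N₂ (N₂ + X)).filter (fun t => t.1 ≠ 0 ∧ t.2 ≠ 0 ∧ t.1 ≠ t.2)

/-- `E A B K` and `y² = x (x - A) (x - B)` are isomorphic over `K`. -/
theorem E_iso (A B : ℤ) (K : Type) [Field K] [CharZero K] :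
    ∃ C : WeierstrassCurve.VariableChange K,
      C • (⟨0, -((A : K) + B), 0, (A : K) * B, 0⟩ : WeierstrassCurve K) = E A B K := by
  refine ⟨⟨(Units.mk0 (1 / 3 : K) (by norm_num)), ((A : K) + B) / 3, 0, 0⟩, ?_⟩
  unfold E
  ext
  · simp [WeierstrassCurve.variableChange_a₁]
  · rw [WeierstrassCurve.variableChange_a₂]
    simp
    ring
  · simp [WeierstrassCurve.variableChange_a₃]
  · rw [WeierstrassCurve.variableChange_a₄]
    simp
    ring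
  · rw [WeierstrassCurve.variableChange_a₆]
    simp
    ring

/-- **Theorem.** For every `L` there is a constant `C` such that for all nonzero integers `d₀`, `d₁`,
..., `d_s`, `K = ℚ(√d₁, ..., √d_s)`, `α = 2 / 2 ^ s`, `P = C 128 ^ ω(d₀ d₁ ... d_s)`, all `X ≥ 1` and
`N₁`, `N₂` with `|N₁|, |N₂| ≤ X ^ L`: the sum of
`(2 ^ (rank E(K) + corank Ш(E / K)[2^∞])) ^ α` over the pairs `(a, b)` in the square
`(N₁, N₁ + X] × (N₂, N₂ + X]` with `a b (a - b) ≠ 0`, `E : y² = x (x - d₀ a) (x - d₀ b)`, is at most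
`P X ^ 2`, and for all `n` the number of these pairs with `rank E(K) + corank Ш(E / K)[2^∞] ≥ n` is
at most `P X ^ 2 / 2 ^ (α n)`. -/
theorem result : ∀ L : ℕ, ∃ C : ℝ, ∀ (d₀ : ℤ) (s : ℕ) (d : Fin s → ℤ), d₀ ≠ 0 →
    (∀ i, d i ≠ 0) → ∀ (K : Type) [Field K] [NumberField K], Gen K d →
    ∀ (N₁ N₂ : ℤ) (X : ℕ), 1 ≤ X → |N₁| ≤ (X : ℤ) ^ L → |N₂| ≤ (X : ℤ) ^ L →
    (∀ t ∈ Sq N₁ N₂ X, BddAbove {q | HasDiv (E (d₀ * t.1) (d₀ * t.2) K) q}) ∧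
    ∑ t ∈ Sq N₁ N₂ X, ((2 : ℝ) ^ (rk (E (d₀ * t.1) (d₀ * t.2) K) +
      crk (E (d₀ * t.1) (d₀ * t.2) K))) ^ ((2 : ℝ) / 2 ^ s) ≤
        C * 128 ^ (d₀ * ∏ i, d i).natAbs.primeFactors.card * (X : ℝ) ^ 2 ∧
    ∀ n : ℕ, (((Sq N₁ N₂ X).filter (fun t => n ≤ rk (E (d₀ * t.1) (d₀ * t.2) K) +
      crk (E (d₀ * t.1) (d₀ * t.2) K))).card : ℝ) ≤
        C * 128 ^ (d₀ * ∏ i, d i).natAbs.primeFactors.card * (X : ℝ) ^ 2 /
          ((2 : ℝ) ^ n) ^ ((2 : ℝ) / 2 ^ s) := by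
  intro L
  obtain ⟨C, hC0, hC⟩ := Pool.Agent.TH342.SQ.all_pairs L
  refine ⟨C, fun d₀ s d hd₀ hd K _ _ hK N₁ N₂ X hX hN₁ hN₂ => ?_⟩
  have hN : ∀ N : ℤ, |N| ≤ (X : ℤ) ^ L → N.natAbs ≤ X ^ L := by
    intro N hN
    have : ((N.natAbs : ℕ) : ℤ) ≤ ((X ^ L : ℕ) : ℤ) := by
      rw [Int.natCast_natAbs]
      push_cast
      exact hN
    exact_mod_cast this
  have hdT : ∀ T : Finset (Fin s), d₀ * ∏ i ∈ T, d i ≠ 0 := fun T =>
    mul_ne_zero hd₀ (prod_ne_zero_iff.2 fun i _ => hd i)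
  have hn : (Fintype.card (Finset (Fin s)) : ℝ) = 2 ^ s := by
    rw [Fintype.card_finset, Fintype.card_fin]
    push_cast
    rfl
  refine Pool.Agent.TH841.NF.famR (Sq N₁ N₂ X) (fun _ => K)
    (fun t => E (d₀ * t.1) (d₀ * t.2) K)
    (fun t => ∏ T : Finset (Fin s), ((Pool.Agent.W307.SE.Sel
      ((d₀ * ∏ i ∈ T, d i) * t.1) ((d₀ * ∏ i ∈ T, d i) * t.2)).ncard : ℝ))
    ((2 : ℝ) / 2 ^ s) (by positivity) _ ?_ ?_
  · intro t ht q hq
    obtain ⟨_, t1, t2, t3⟩ := mem_filter.1 ht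
    have g2 : ∀ T : Finset (Fin s), (∏ i ∈ T, d i) ^ 2 *
        (-27 * ((d₀ * t.1) ^ 2 - (d₀ * t.1) * (d₀ * t.2) + (d₀ * t.2) ^ 2)) =
        -27 * (((d₀ * ∏ i ∈ T, d i) * t.1) ^ 2 - ((d₀ * ∏ i ∈ T, d i) * t.1) *
          ((d₀ * ∏ i ∈ T, d i) * t.2) + ((d₀ * ∏ i ∈ T, d i) * t.2) ^ 2) := fun T => by ring
    have g3 : ∀ T : Finset (Fin s), (∏ i ∈ T, d i) ^ 3 *
        (27 * (d₀ * t.1 + d₀ * t.2) * (9 * (d₀ * t.1) * (d₀ * t.2) -
          2 * (d₀ * t.1 + d₀ * t.2) ^ 2)) =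
        27 * ((d₀ * ∏ i ∈ T, d i) * t.1 + (d₀ * ∏ i ∈ T, d i) * t.2) *
          (9 * ((d₀ * ∏ i ∈ T, d i) * t.1) * ((d₀ * ∏ i ∈ T, d i) * t.2) -
          2 * ((d₀ * ∏ i ∈ T, d i) * t.1 + (d₀ * ∏ i ∈ T, d i) * t.2) ^ 2) := fun T => by ring
    have hpoly : ∀ A B : ℤ, ∀ x : ℤ, x ^ 3 + (-27 * (A ^ 2 - A * B + B ^ 2)) * x +
        (27 * (A + B) * (9 * A * B - 2 * (A + B) ^ 2)) =
        (x - (-3 * (A + B))) * (x - (6 * A - 3 * B)) * (x - (6 * B - 3 * A)) := by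
      intro A B x
      ring
    have hdisc : ∀ A B : ℤ, A ≠ 0 → B ≠ 0 → A ≠ B →
        4 * (-27 * (A ^ 2 - A * B + B ^ 2)) ^ 3 +
        27 * (27 * (A + B) * (9 * A * B - 2 * (A + B) ^ 2)) ^ 2 ≠ 0 := by
      intro A B hA hB hAB
      have e : 4 * (-27 * (A ^ 2 - A * B + B ^ 2)) ^ 3 +
        27 * (27 * (A + B) * (9 * A * B - 2 * (A + B) ^ 2)) ^ 2 =
          -((9 * A) * (9 * B) * (9 * (A - B))) ^ 2 := by ring
      rw [e, neg_ne_zero]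
      exact pow_ne_zero 2 (mul_ne_zero (mul_ne_zero (mul_ne_zero (by norm_num) hA)
        (mul_ne_zero (by norm_num) hB)) (mul_ne_zero (by norm_num) (sub_ne_zero.2 hAB)))
    have hD0 := hdisc (d₀ * t.1) (d₀ * t.2) (mul_ne_zero hd₀ t1) (mul_ne_zero hd₀ t2)
      (fun h => t3 (mul_left_cancel₀ hd₀ h))
    refine Pool.Agent.TH841.NF.one_field hK hd hD0 _ ?_ ?_ hq
    · intro T
      rw [g2, g3]
      exact Pool.Agent.TH342.SQ.bd_sel (mul_ne_zero (hdT T) t1) (mul_ne_zero (hdT T) t2)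
        (fun h => t3 (mul_left_cancel₀ (hdT T) h))
    · intro T
      exact Pool.Agent.W307.RG.fin_tw hD0 (hpoly _ _) (prod_ne_zero_iff.2 fun i _ => hd i)
  · have h1 : ∀ t ∈ Sq N₁ N₂ X, (∏ T : Finset (Fin s), ((Pool.Agent.W307.SE.Sel
        ((d₀ * ∏ i ∈ T, d i) * t.1)
        ((d₀ * ∏ i ∈ T, d i) * t.2)).ncard : ℝ)) ^ ((2 : ℝ) / 2 ^ s) ≤
        ∑ T : Finset (Fin s), ((1 : ℝ) / 2 ^ s) * ((Pool.Agent.W307.SE.Sel
          ((d₀ * ∏ i ∈ T, d i) * t.1) ((d₀ * ∏ i ∈ T, d i) * t.2)).ncard : ℝ) ^ 2 := by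
      intro t _
      have := Pool.Agent.TH841.NF.prod_rpow_le (fun T : Finset (Fin s) =>
        ((Pool.Agent.W307.SE.Sel ((d₀ * ∏ i ∈ T, d i) * t.1)
          ((d₀ * ∏ i ∈ T, d i) * t.2)).ncard : ℝ)) (fun T => Nat.cast_nonneg _)
      rw [hn] at this
      exact this
    refine (sum_le_sum h1).trans ?_
    rw [sum_comm]
    have h2 : ∀ T : Finset (Fin s), ∑ t ∈ Sq N₁ N₂ X, ((1 : ℝ) / 2 ^ s) *
        ((Pool.Agent.W307.SE.Sel ((d₀ * ∏ i ∈ T, d i) * t.1)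
          ((d₀ * ∏ i ∈ T, d i) * t.2)).ncard : ℝ) ^ 2 ≤ ((1 : ℝ) / 2 ^ s) *
        (C * 128 ^ (d₀ * ∏ i, d i).natAbs.primeFactors.card * (X : ℝ) ^ 2) := by
      intro T
      rw [← mul_sum]
      refine mul_le_mul_of_nonneg_left ?_ (by positivity)
      have h3 := hC (d₀ * ∏ i ∈ T, d i) N₁ N₂ X (hdT T) hX (hN N₁ hN₁) (hN N₂ hN₂)
      have h3' : ∑ t ∈ Sq N₁ N₂ X,
          ((Pool.Agent.W307.SE.Sel ((d₀ * ∏ i ∈ T, d i) * t.1)
            ((d₀ * ∏ i ∈ T, d i) * t.2)).ncard : ℝ) ^ 2 =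
          ∑ t ∈ Pool.Agent.TH342.SQ.Bx N₁ N₂ X,
            Pool.Agent.TH342.SQ.GD (d₀ * ∏ i ∈ T, d i) t := by
        unfold Sq Pool.Agent.TH342.SQ.Bx
        rw [sum_filter]
        exact sum_congr rfl fun t _ => rfl
      rw [h3']
      refine h3.trans ?_
      have h4 : (d₀ * ∏ i ∈ T, d i).natAbs.primeFactors.card ≤
          (d₀ * ∏ i, d i).natAbs.primeFactors.card := by
        apply card_le_card
        apply Nat.primeFactors_mono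
        · rw [Int.natAbs_dvd_natAbs]
          exact mul_dvd_mul_left _ (prod_dvd_prod_of_subset _ _ _ (subset_univ T))
        · rw [Ne, Int.natAbs_eq_zero]
          exact hdT univ
      have h5 : (128 : ℝ) ^ (d₀ * ∏ i ∈ T, d i).natAbs.primeFactors.card ≤
          128 ^ (d₀ * ∏ i, d i).natAbs.primeFactors.card :=
        pow_le_pow_right₀ (by norm_num) h4
      gcongr
    refine (sum_le_sum fun T _ => h2 T).trans (le_of_eq ?_)
    rw [sum_const, card_univ, nsmul_eq_mul, hn, ← mul_assoc]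
    rw [mul_one_div_cancel (by positivity), one_mul]

end Pool.Agent.Results.MP_f50388_nt.ShortSquaresOverFields
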